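import Pool.Agent.V5helper99.OB.Stm2
import Pool.Agent.V5helper9.OB.Big

/-!
The outer boundary of critical clusters: the number of extreme vertices of large clusters.
-/

set_option autoImplicit false

namespace Pool.Agent.V5helper90.OB

open H974 H12S Finset H984P H984N H342P Pool.Agent.V5helper99.OB

/-- NUM. -/
theorem t_NUM : S_NUM := by
  intro σ hσ
  obtain ⟨N, hN⟩ := exists_nat_ge (1 / σ)
  obtain ⟨C, hC, hbig⟩ := Pool.Agent.V5helper9.OB.big N
  refine ⟨C, hC, fun n hn m hm => ?_⟩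
  have hnR : (1:ℝ) ≤ n := by exact_mod_cast hn
  have hmpos : (0:ℝ) < m := lt_of_lt_of_le (by positivity) hm
  have hm1 : 1 ≤ m := by
    have : 0 < m := by exact_mod_cast hmpos
    omega
  have hNm : (n:ℤ) ≤ N * m := by
    have h1 : (n:ℝ) ≤ 1 / σ * m := by
      rw [div_mul_eq_mul_div, one_mul, le_div_iff₀ hσ]
      linarith
    have h2 : (n:ℝ) ≤ N * m := h1.trans (mul_le_mul_of_nonneg_right hN hmpos.le)
    exact_mod_cast h2
  refine hbig m hm1 0 n 0 n (by linarith) (by linarith) (RE 0 n 0 n) (Finset.Subset.refl _)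
    (fun v F => Lf v m (↑F : Set Edg)) _ ?_ ?_
  · rintro F _ v _ ⟨⟨w, hw, hr⟩, -⟩
    refine ⟨w, ?_, hr⟩
    unfold sd
    refine le_trans ?_ (le_max_left _ _)
    rw [abs_sub_comm]
    exact le_trans (by omega) (le_abs_self _)
  · rintro F _ v _ w _ ⟨-, hv⟩ ⟨-, hw⟩ hr
    have h1 := hv w hr
    have h2 := hw v hr.symm
    have h3 : v.1 = w.1 := le_antisymm h1.1 h2.1
    exact Prod.ext h3 (le_antisymm (h2.2 h3) (h1.2 h3.symm))

end Pool.Agent.V5helper90.OB
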