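import Pool.Agent.V5helper99.OB.Stm2
import Pool.Agent.V5helper9.OB.LL
import Pool.Agent.V5helper9.OB.DTP

/-!
The outer boundary of critical clusters: the strand rarely comes near the column of the extreme
vertex.
-/

set_option autoImplicit false

namespace Pool.Agent.V5helper90.OB

open H974 H12S Finset H984P H984N H342P Pool.Agent.V5helper99.OB H984P.SideAux

theorem okh' : Ok (fun _ : Edg => (1 / 2 : ℝ)) := fun _ => ⟨by norm_num, by norm_num⟩

/-- The extreme vertex of a large cluster is locally extreme. -/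
theorem lloc_of_lf {v : Vtx} {m ρ : ℕ} (hρ : 1 ≤ ρ) (hm : ρ ≤ m) {F : Set Edg} (h : Lf v m F) :
    Lloc ρ v F := by
  obtain ⟨⟨w, hw, hr⟩, hx⟩ := h
  refine ⟨?_, fun u hu => hx u (hu.mono Set.inter_subset_left)⟩
  obtain ⟨w', k1, k2, k3⟩ := first_exit (a := v.1 - ρ) (b := v.1 + ρ)
    (c := v.2 - ρ) (d := v.2 + ρ) (u := v) (by unfold inR; omega) hr (by omega)
  refine ⟨w', ?_, ?_⟩
  · unfold inR at k1
    unfold sd
    apply le_antisymm
    · refine max_le (abs_le.2 ⟨by omega, by omega⟩) (abs_le.2 ⟨by omega, by omega⟩)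
    · rcases k2 with k2 | k2 | k2 | k2
      · refine le_trans ?_ (le_max_left _ _)
        rw [abs_sub_comm]
        exact le_trans (by omega) (le_abs_self _)
      · refine le_trans ?_ (le_max_left _ _)
        exact le_trans (by omega) (le_abs_self _)
      · refine le_trans ?_ (le_max_right _ _)
        rw [abs_sub_comm]
        exact le_trans (by omega) (le_abs_self _)
      · refine le_trans ?_ (le_max_right _ _)
        exact le_trans (by omega) (le_abs_self _)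
  · refine k3.mono ?_
    rintro e ⟨h1, h2⟩
    exact ⟨h1, by unfold blk; exact h2⟩

/-- The face of a state is one of the four faces of the vertex. -/
theorem face_near (τ : St) : (τ.1.1 - 1 ≤ (face τ).1 ∧ (face τ).1 ≤ τ.1.1) ∧
    (τ.1.2 - 1 ≤ (face τ).2 ∧ (face τ).2 ≤ τ.1.2) := by
  obtain ⟨⟨x, y⟩, q⟩ := τ
  cases q <;> simp

/-- The two faces of an examined edge are neighbours. -/
theorem rt_near (τ : St) : |(face (rt τ)).1 - (face τ).1| ≤ 1 ∧
    |(face (rt τ)).2 - (face τ).2| ≤ 1 := by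
  obtain ⟨⟨x, y⟩, q⟩ := τ
  cases q <;> simp

theorem dtgt_eq (e : Edg) : dtgt e = (e.1, e.2.1) := by
  obtain ⟨x, y, _ | _⟩ := e <;> simp

/-- A strand which comes near the column of `v` creates a large dual cluster near this column. -/
theorem dt_of_tch {v : Vtx} {m ρ θ' : ℕ} {F : Finset Edg} {θ : ℤ}
    (hρ : 16 ≤ ρ) (hm : 64 * ρ ≤ m) (hθ : 16 * θ' ≤ ρ) (hθ' : θ ≤ θ')
    (h : Tch v m θ (v.2 - 17 * ρ) (v.2 - 13 * ρ) F) :
    ∃ i ∈ Finset.range 21, DT v.1 (v.2 - 17 * ρ - 1 + (i : ℤ) * (ρ / 4 : ℕ)) ρ θ' (↑F : Set Edg) := by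
  obtain ⟨Y, T, hst, x, ⟨s, hs, hsx⟩, hx1, hlo, hhi⟩ := h
  set G : Set Edg := insert (v.1 - 1, v.2, true) (↑F : Set Edg) with hG
  obtain ⟨hv, hf, hO, hfree, -, hcl, -, hlf⟩ := side2_exists hst
  set fa : ℕ → Vtx := fun k => face (orb G (st0 v.1 v.2) k) with hfa
  have hface1 : ∀ k ≤ T, hf (fa k) = 1 := fun k hk => (hO k hk).2
  have hge : ∀ k ≤ T, v.1 - 1 ≤ (fa k).1 := by
    intro k hk
    have h1 := orb_ge hst hk
    have h2 := (face_near (orb G (st0 v.1 v.2) k)).1.1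
    simp only [hfa]
    omega
  have hcol : ∀ k ≤ T, (fa k).2 < v.2 → v.1 ≤ (fa k).1 := by
    intro k hk h1
    by_contra h2
    have h3 := hge k hk
    have h4 := (hlf (fa k).1 (fa k).2 (by omega)).1 (hface1 k hk)
    omega
  set q : ℕ := ρ / 4 with hq
  have hq4 : 4 ≤ q := by omega
  set f : Vtx := fa s with hfd
  have hfx : (x.1 - 1 ≤ f.1 ∧ f.1 ≤ x.1) ∧ (x.2 - 1 ≤ f.2 ∧ f.2 ≤ x.2) := by
    have := face_near (orb G (st0 v.1 v.2) s)
    rw [hsx] at this
    exact this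
  have hfA : v.1 ≤ f.1 := hcol s hs (by
    show f.2 < v.2
    omega)
  -- the height
  set c0 : ℤ := v.2 - 17 * ρ - 1 with hc0
  set iz : ℤ := (f.2 - c0) / (q : ℤ) with hiz
  have hqz : (0:ℤ) < q := by omega
  have hiz0 : 0 ≤ iz := Int.ediv_nonneg (by omega) hqz.le
  have hdm := Int.emod_add_mul_ediv (f.2 - c0) (q : ℤ)
  have hmod0 := Int.emod_nonneg (f.2 - c0) hqz.ne'
  have hmod1 := Int.emod_lt_of_pos (f.2 - c0) hqz
  rw [← hiz] at hdm
  have hiz1 : iz < 21 := by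
    by_contra hcon
    push Not at hcon
    have h1 : (q:ℤ) * 21 ≤ q * iz := mul_le_mul_of_nonneg_left hcon hqz.le
    omega
  refine ⟨iz.toNat, Finset.mem_range.2 (by omega), ?_⟩
  have hcast : ((iz.toNat : ℕ) : ℤ) = iz := Int.toNat_of_nonneg hiz0
  rw [hcast]
  set y1 : ℤ := c0 + iz * (q : ℤ) with hy1
  have hcomm : iz * (q:ℤ) = q * iz := mul_comm _ _
  have hy1a : y1 ≤ f.2 := by omega
  have hy1b : f.2 < y1 + q := by omega
  have hy1c : y1 + ρ < v.2 := by omega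
  -- the first time at distance `q`
  have hex : ∃ k, (q : ℤ) ≤ sd (fa (s + k)) f := ⟨T - s, by
      have h1 : fa (s + (T - s)) = (v.1 + m - 1, Y) := by
        have : s + (T - s) = T := by omega
        simp only [hfa]
        rw [this, hst.tip, face_nw]
      rw [h1]
      unfold sd
      refine le_trans ?_ (le_max_left _ _)
      refine le_trans ?_ (le_abs_self _)
      simp only
      omega⟩
  classical
  set k := Nat.find hex with hk
  have hk1 : (q : ℤ) ≤ sd (fa (s + k)) f := Nat.find_spec hex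
  have hk2 : ∀ j < k, sd (fa (s + j)) f < q := fun j hj => not_le.1 (Nat.find_min hex hj)
  have hkT : s + k ≤ T := by
    have h1 : k ≤ T - s := Nat.find_min' hex (by
      have h1 : fa (s + (T - s)) = (v.1 + m - 1, Y) := by
        have : s + (T - s) = T := by omega
        simp only [hfa]
        rw [this, hst.tip, face_nw]
      rw [h1]
      unfold sd
      refine le_trans ?_ (le_max_left _ _)
      refine le_trans ?_ (le_abs_self _)
      simp only
      omega)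
    omega
  have hreach : ∀ j ≤ k, DReach (DBx v.1 y1 ρ \ (↑F : Set Edg)) f (fa (s + j)) := by
    intro j
    induction j with
    | zero => intro _; exact DReach.refl _ _
    | succ j ih =>
      intro hj
      have ih' := ih (by omega)
      have hsd := hk2 j (by omega)
      have hstep : orb G (st0 v.1 v.2) (s + (j + 1)) = nxt G (orb G (st0 v.1 v.2) (s + j)) := by
        rw [← add_assoc, orb_succ]
      by_cases ho : ae (orb G (st0 v.1 v.2) (s + j)) ∈ G
      · have : fa (s + (j + 1)) = fa (s + j) := by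
          simp only [hfa]
          rw [hstep, nxt_open ho, p2_face_mv]
        rw [this]
        exact ih'
      · have h1 : fa (s + (j + 1)) = face (rt (orb G (st0 v.1 v.2) (s + j))) := by
          simp only [hfa]
          rw [hstep, nxt_closed ho]
        have h2 := rt_near (orb G (st0 v.1 v.2) (s + j))
        rw [← h1] at h2
        have h3 : |(fa (s + (j + 1))).1 - (fa (s + j)).1| ≤ 1 ∧
          |(fa (s + (j + 1))).2 - (fa (s + j)).2| ≤ 1 := h2
        rw [abs_le, abs_le] at h3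
        unfold sd at hsd
        rw [max_lt_iff, abs_lt, abs_lt] at hsd
        have hc1 : v.1 ≤ (fa (s + j)).1 := hcol _ (by omega) (by omega)
        have hc2 : v.1 ≤ (fa (s + (j + 1))).1 := hcol _ (by omega) (by omega)
        have hd := p2_dends (orb G (st0 v.1 v.2) (s + j))
        rw [← h1] at hd
        have hd' : (dsrc (ae (orb G (st0 v.1 v.2) (s + j))) = fa (s + j) ∧
            dtgt (ae (orb G (st0 v.1 v.2) (s + j))) = fa (s + (j + 1))) ∨
            (dsrc (ae (orb G (st0 v.1 v.2) (s + j))) = fa (s + (j + 1)) ∧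
            dtgt (ae (orb G (st0 v.1 v.2) (s + j))) = fa (s + j)) := hd
        refine ih'.trans (DAdj.reach ⟨ae (orb G (st0 v.1 v.2) (s + j)), ⟨⟨?_, ?_, ?_⟩, ?_⟩, hd'⟩)
        · have h4 := dtgt_eq (ae (orb G (st0 v.1 v.2) (s + j)))
          have h5 := congrArg Prod.fst h4
          simp only at h5
          rcases hd' with ⟨_, h6⟩ | ⟨_, h6⟩ <;> rw [h6] at h5 <;> omega
        · rcases hd' with ⟨h6, _⟩ | ⟨h6, _⟩ <;> rw [h6] <;> unfold inR <;> omega
        · rcases hd' with ⟨_, h6⟩ | ⟨_, h6⟩ <;> rw [h6] <;> unfold inR <;> omega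
        · intro hcon
          exact ho (Set.mem_insert_of_mem _ hcon)
  refine ⟨f, hfA, by omega, ?_, ⟨fa (s + k), hk1, hreach k le_rfl⟩, ?_⟩
  · rw [abs_le]
    omega
  · have key : ∀ g, DReach (DBx v.1 y1 ρ \ (↑F : Set Edg)) f g → hf g = 1 ∧ v.1 ≤ g.1 := by
      intro g hg
      induction hg with
      | refl => exact ⟨hface1 s hs, hfA⟩
      | @tail b c _ hbc ih =>
        obtain ⟨e, ⟨⟨he1, he2, he3⟩, heF⟩, hc⟩ := hbc
        have h5 := congrArg Prod.fst (dtgt_eq e)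
        simp only at h5
        have hle : e.1 ≤ v.1 + ρ := by
          have := he3.1.2
          omega
        have heq : hf (dsrc e) = hf (dtgt e) := by
          by_cases hE : e ∈ Exm G (st0 v.1 v.2) T
          · refine hcl e hE ?_
            intro hcon
            rcases hcon with hcon | hcon
            · rw [hcon] at he1
              simp only at he1
              omega
            · exact heF hcon
          · exact (hfree e hE (by omega) (by omega)).2.1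
        have hfc : hf c = 1 := by
          rcases hc with ⟨h6, h7⟩ | ⟨h6, h7⟩
          · rw [← h7, ← heq, h6]; exact ih.1
          · rw [← h6, heq, h7]; exact ih.1
        refine ⟨hfc, ?_⟩
        have hcin : inR (v.1 - 1) (v.1 + ρ) (y1 - ρ) (y1 + ρ) c := by
          rcases hc with ⟨_, h7⟩ | ⟨h6, _⟩
          · rw [← h7]; exact he3
          · rw [← h6]; exact he2
        unfold inR at hcin
        by_contra hcon
        have h8 := (hlf c.1 c.2 (by omega)).1 hfc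
        omega
    exact fun g hg => (key g hg).2

/-- Independence of the two clusters. -/
theorem joint_le {n ρ θ' : ℕ} {v : Vtx} {y1 : ℤ} (hA : 0 ≤ v.1) (hA2 : v.1 + ρ + 1 ≤ n)
    (hy : 0 ≤ y1 - ρ) (hy2 : y1 + ρ < v.2 - ρ) (hv2 : v.2 ≤ n) :
    PQ (1 / 2) (RE 0 n 0 n) (fun F => Lloc ρ v (↑F : Set Edg) ∧ DT v.1 y1 ρ θ' (↑F : Set Edg)) =
      PQ (1 / 2) (RE 0 n 0 n) (fun F => Lloc ρ v (↑F : Set Edg)) *
        PQ (1 / 2) (RE 0 n 0 n) (fun F => DT v.1 y1 ρ θ' (↑F : Set Edg)) := by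
  classical
  refine Pr_indep (S := RE 0 n 0 n ∩ blk v ρ)
    (T := (RE 0 n 0 n).filter (fun e => e ∈ DBx v.1 y1 ρ)) Finset.inter_subset_left
    (Finset.filter_subset _ _) ?_ ?_ ?_
  · rw [Finset.disjoint_left]
    intro e he he'
    rw [Finset.mem_inter] at he
    rw [Finset.mem_filter] at he'
    have h1 := he.2
    obtain ⟨x, y, b⟩ := e
    have h2 := he'.2.2.2
    rw [dtgt_eq] at h2
    unfold inR at h2
    simp only at h2
    unfold blk at h1
    cases b
    · rw [mem_RE_false] at h1; omega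
    · rw [mem_RE_true] at h1; omega
  · intro F hF
    have : (↑F : Set Edg) ∩ ↑(blk v ρ) = ↑(F ∩ (RE 0 n 0 n ∩ blk v ρ)) ∩ ↑(blk v ρ) := by
      ext e
      simp only [Set.mem_inter_iff, Finset.mem_coe, Finset.mem_inter]
      constructor
      · rintro ⟨h1, h2⟩
        exact ⟨⟨h1, hF h1, h2⟩, h2⟩
      · rintro ⟨⟨h1, _⟩, h2⟩
        exact ⟨h1, h2⟩
    unfold Lloc
    rw [this]
  · intro F hF
    have : DBx v.1 y1 ρ \ (↑F : Set Edg) = DBx v.1 y1 ρ \
        (↑(F ∩ (RE 0 n 0 n).filter (fun e => e ∈ DBx v.1 y1 ρ)) : Set Edg) := by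
      ext e
      simp only [Set.mem_diff, Finset.mem_coe, Finset.mem_inter, Finset.mem_filter]
      constructor
      · rintro ⟨h1, h2⟩
        exact ⟨h1, fun h => h2 h.1⟩
      · rintro ⟨h1, h2⟩
        exact ⟨h1, fun h => h2 ⟨h, hF h, h1⟩⟩
    unfold Pool.Agent.V5helper99.OB.DT
    rw [this]

theorem DBx_sub {n : ℕ} {A y1 : ℤ} {ρ : ℕ} (hA : 0 ≤ A) (hA2 : A + ρ + 1 ≤ n)
    (hy : 0 ≤ y1 - ρ) (hy2 : y1 + ρ + 1 ≤ n) : DBx A y1 ρ ⊆ ↑(RE 0 n 0 n) := by
  rintro ⟨x, y, b⟩ ⟨h1, -, h3⟩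
  rw [dtgt_eq] at h3
  unfold inR at h3
  simp only at h1 h3
  rw [Finset.mem_coe]
  cases b
  · rw [mem_RE_false]; omega
  · rw [mem_RE_true]; omega

/-- The bound for one vertex. -/
theorem one_le {C : ℝ} (hC : ∀ (R θ : ℕ) (A y1 : ℤ), 16 ≤ R → 16 * θ ≤ R → ∀ S : Finset Edg,
    DBx A y1 R ⊆ ↑S → PQ (1 / 2) S (fun F => DT A y1 R θ ↑F) ≤ C * (θ + 1) / R)
    {n m ρ θ' : ℕ} {θ : ℤ} {v : Vtx} (hρ : 16 ≤ ρ) (hm : 64 * ρ ≤ m) (hmn : m ≤ n)
    (hθ : 16 * θ' ≤ ρ) (hθ' : θ ≤ θ') (hv : v ∈ Finset.Icc (0:ℤ) n ×ˢ Finset.Icc (0:ℤ) n)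
    (hv2 : (n : ℤ) ≤ 2 * v.2) :
    PQ (1 / 2) (RE 0 n 0 n) (fun F => Lf v m (↑F : Set Edg) ∧
        Tch v m θ (v.2 - 17 * ρ) (v.2 - 13 * ρ) F) ≤
      PQ (1 / 2) (RE 0 n 0 n) (fun F => Lloc ρ v (↑F : Set Edg)) * (21 * (C * (θ' + 1) / ρ)) := by
  rw [Finset.mem_product, Finset.mem_Icc, Finset.mem_Icc] at hv
  have hP0 : 0 ≤ PQ (1 / 2) (RE 0 n 0 n) (fun F => Lloc ρ v (↑F : Set Edg)) :=
    Pr_nonneg okh' _ _
  have hD0 : 0 ≤ C * (θ' + 1) / ρ := by
    have := hC ρ θ' 0 0 hρ hθ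
      ((RE (-(ρ:ℤ) - 5) (ρ + 5) (-(ρ:ℤ) - 5) (ρ + 5))) (by
        rintro ⟨x, y, b⟩ ⟨h1, -, h3⟩
        rw [dtgt_eq] at h3
        unfold inR at h3
        simp only at h1 h3
        rw [Finset.mem_coe]
        cases b
        · rw [mem_RE_false]; omega
        · rw [mem_RE_true]; omega)
    exact le_trans (Pr_nonneg okh' _ _) this
  by_cases hvm : v.1 + m ≤ n
  · refine le_trans (Pr_mono okh' (B := fun F => ∃ i ∈ Finset.range 21,
      (Lloc ρ v (↑F : Set Edg) ∧ DT v.1 (v.2 - 17 * ρ - 1 + (i : ℤ) * (ρ / 4 : ℕ)) ρ θ'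
        (↑F : Set Edg))) ?_) ?_
    · rintro F _ ⟨h1, h2⟩
      obtain ⟨i, hi, h3⟩ := dt_of_tch hρ hm hθ hθ' h2
      exact ⟨i, hi, lloc_of_lf (by omega) (by omega) h1, h3⟩
    · refine le_trans (Pr_exists_le okh' _ _ _) ?_
      have hterm : ∀ i ∈ Finset.range 21, Pr (fun _ => (1 / 2 : ℝ)) (RE 0 n 0 n)
          (fun F => Lloc ρ v (↑F : Set Edg) ∧
            DT v.1 (v.2 - 17 * ρ - 1 + (i : ℤ) * (ρ / 4 : ℕ)) ρ θ' (↑F : Set Edg)) ≤
          PQ (1 / 2) (RE 0 n 0 n) (fun F => Lloc ρ v (↑F : Set Edg)) * (C * (θ' + 1) / ρ) := by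
        intro i hi
        rw [Finset.mem_range] at hi
        have hi2 : (i : ℤ) * (ρ / 4 : ℕ) ≤ 20 * (ρ / 4 : ℕ) :=
          mul_le_mul_of_nonneg_right (by exact_mod_cast (by omega)) (by positivity)
        have hi0 : 0 ≤ (i : ℤ) * (ρ / 4 : ℕ) := by positivity
        have e := joint_le (n := n) (ρ := ρ) (θ' := θ') (v := v)
          (y1 := v.2 - 17 * ρ - 1 + (i : ℤ) * (ρ / 4 : ℕ)) (by omega) (by omega) (by omega)
          (by omega) (by omega)
        refine le_trans (le_of_eq e) (mul_le_mul_of_nonneg_left ?_ hP0)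
        exact hC ρ θ' v.1 _ hρ hθ _ (DBx_sub (by omega) (by omega) (by omega) (by omega))
      refine le_trans (Finset.sum_le_sum hterm) ?_
      rw [Finset.sum_const, Finset.card_range, nsmul_eq_mul]
      apply le_of_eq
      push_cast
      ring
  · have h0 : PQ (1 / 2) (RE 0 n 0 n) (fun F => Lf v m (↑F : Set Edg) ∧
        Tch v m θ (v.2 - 17 * ρ) (v.2 - 13 * ρ) F) ≤ 0 := by
      show Pr _ _ _ ≤ 0
      refine le_trans (Pr_mono okh' (B := fun _ => False) ?_) ?_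
      · rintro F hF ⟨⟨⟨w, hw, hr⟩, -⟩, -⟩
        have hFs : (↑F : Set Edg) ⊆ ↑(RE 0 n 0 n) := by exact_mod_cast hF
        have h3 := reach_RE hFs (u := v) (by unfold inR; omega) hr
        unfold inR at h3
        omega
      · have h1 := Pr_not (p := fun _ : Edg => (1 / 2 : ℝ)) (RE 0 n 0 n) (fun _ => True)
        have h2 := Pr_true (p := fun _ : Edg => (1 / 2 : ℝ)) (RE 0 n 0 n) (A := fun _ => True)
          (fun _ _ => trivial)
        rw [h2] at h1
        simp only [not_true_eq_false] at h1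
        rw [h1]
        norm_num
    refine le_trans h0 (mul_nonneg hP0 (by positivity))

/-- Covering of the box. -/
theorem sum_box {C : ℝ} (hC : 0 < C) (hLL : ∀ (n ρ : ℕ), 8 ≤ ρ → ∀ z : Vtx,
    ∑ v ∈ ctr z (ρ / 8), PQ (1 / 2) (RE 0 n 0 n) (fun F => Lloc ρ v ↑F) ≤ C)
    {n ρ : ℕ} {σ : ℝ} (hσ : 0 < σ) (hρ : 16 ≤ ρ) (_hn : 1 ≤ n) (hs : σ * n ≤ ρ) :
    ∑ v ∈ Finset.Icc (0:ℤ) n ×ˢ Finset.Icc (0:ℤ) n,
      PQ (1 / 2) (RE 0 n 0 n) (fun F => Lloc ρ v ↑F) ≤ (16 / σ + 1) ^ 2 * C := by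
  classical
  set a := ρ / 8 with ha
  have ha1 : 1 ≤ a := by omega
  set k := n / a with hk
  set Z : Finset Vtx := (Finset.range (k + 1) ×ˢ Finset.range (k + 1)).image
    (fun i : ℕ × ℕ => (((i.1 * a : ℕ) : ℤ), ((i.2 * a : ℕ) : ℤ))) with hZ
  set f : Vtx → ℝ := fun v => PQ (1 / 2) (RE 0 n 0 n) (fun F => Lloc ρ v ↑F) with hf
  have hf0 : ∀ v, 0 ≤ f v := fun v => Pr_nonneg okh' _ _
  have hcov : Finset.Icc (0:ℤ) n ×ˢ Finset.Icc (0:ℤ) n ⊆ Z.biUnion (fun z => ctr z a) := by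
    intro v hv
    rw [Finset.mem_product, Finset.mem_Icc, Finset.mem_Icc] at hv
    rw [Finset.mem_biUnion]
    have key : ∀ t : ℤ, 0 ≤ t → t ≤ n → ∃ i ∈ Finset.range (k + 1), ((i * a : ℕ) : ℤ) ≤ t ∧
        t ≤ ((i * a : ℕ) : ℤ) + a := by
      intro t h0 h1
      obtain ⟨s, rfl⟩ := Int.eq_ofNat_of_zero_le h0
      have h1' : s ≤ n := by exact_mod_cast h1
      refine ⟨s / a, Finset.mem_range.2 (Nat.lt_succ_of_le (Nat.div_le_div_right h1')), ?_, ?_⟩
      · exact_mod_cast Nat.div_mul_le_self s a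
      · have h2 := Nat.div_add_mod s a
        have h3 := Nat.mod_lt s (show 0 < a by omega)
        have h4 : s ≤ s / a * a + a := by
          rw [Nat.mul_comm]
          omega
        exact_mod_cast h4
    obtain ⟨i, hi, hi1, hi2⟩ := key v.1 hv.1.1 hv.1.2
    obtain ⟨j, hj, hj1, hj2⟩ := key v.2 hv.2.1 hv.2.2
    refine ⟨(((i * a : ℕ) : ℤ), ((j * a : ℕ) : ℤ)), ?_, ?_⟩
    · rw [hZ, Finset.mem_image]
      exact ⟨(i, j), Finset.mem_product.2 ⟨hi, hj⟩, rfl⟩
    · unfold ctr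
      rw [Finset.mem_product, Finset.mem_Icc, Finset.mem_Icc]
      simp only
      omega
  have hsub : ∀ W : Finset Vtx, ∑ v ∈ W.biUnion (fun z => ctr z a), f v ≤
      ∑ z ∈ W, ∑ v ∈ ctr z a, f v := by
    intro W
    induction W using Finset.induction_on with
    | empty => simp
    | insert z W hz ih =>
      rw [Finset.biUnion_insert, Finset.sum_insert hz]
      have h1 : ∑ v ∈ ctr z a ∪ W.biUnion (fun z => ctr z a), f v ≤
          ∑ v ∈ ctr z a, f v + ∑ v ∈ W.biUnion (fun z => ctr z a), f v := by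
        rw [← Finset.sum_union_inter]
        exact le_add_of_nonneg_right (Finset.sum_nonneg (fun v _ => hf0 v))
      linarith
  have hcard : (Z.card : ℝ) ≤ (16 / σ + 1) ^ 2 := by
    have h1 : Z.card ≤ (k + 1) * (k + 1) := by
      refine le_trans Finset.card_image_le ?_
      rw [Finset.card_product, Finset.card_range]
    have h2 : (k : ℝ) ≤ 16 / σ := by
      have h3 : (k : ℝ) ≤ (n : ℝ) / a := by
        rw [hk]; exact Nat.cast_div_le
      have haR : (0:ℝ) < a := by exact_mod_cast (show 0 < a by omega)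
      have h4 : (ρ : ℝ) ≤ 16 * a := by exact_mod_cast (show ρ ≤ 16 * a by omega)
      refine h3.trans ?_
      rw [div_le_div_iff₀ haR hσ]
      linarith
    calc (Z.card : ℝ) ≤ ((k + 1) * (k + 1) : ℕ) := by exact_mod_cast h1
      _ = ((k : ℝ) + 1) ^ 2 := by push_cast; ring
      _ ≤ (16 / σ + 1) ^ 2 := by
        apply pow_le_pow_left₀ (by positivity)
        linarith
  calc ∑ v ∈ Finset.Icc (0:ℤ) n ×ˢ Finset.Icc (0:ℤ) n, f v
      ≤ ∑ v ∈ Z.biUnion (fun z => ctr z a), f v :=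
        Finset.sum_le_sum_of_subset_of_nonneg hcov (fun v _ _ => hf0 v)
    _ ≤ ∑ z ∈ Z, ∑ v ∈ ctr z a, f v := hsub Z
    _ ≤ ∑ z ∈ Z, C := Finset.sum_le_sum (fun z _ => hLL n ρ (by omega) z)
    _ = Z.card * C := by rw [Finset.sum_const, nsmul_eq_mul]
    _ ≤ (16 / σ + 1) ^ 2 * C := mul_le_mul_of_nonneg_right hcard hC.le

/-- TOUCH. -/
theorem t_TOUCH : S_TOUCH := by
  intro ε hε σ hσ
  obtain ⟨CL, hCL, hLL⟩ := Pool.Agent.V5helper9.OB.t_LL
  obtain ⟨CD, hCD, hDT⟩ := Pool.Agent.V5helper9.OB.t_DT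
  set K : ℝ := (16 / σ + 1) ^ 2 * CL * (21 * CD) with hK
  have hKpos : 0 < K := by positivity
  set θ : ℝ := min (σ / 16) (ε * σ / (2 * K)) with hθ
  have hθpos : 0 < θ := lt_min (by positivity) (by positivity)
  obtain ⟨n1, hn1⟩ := exists_nat_ge (16 / σ)
  obtain ⟨n2, hn2⟩ := exists_nat_ge (2 * K / (ε * σ))
  refine ⟨θ, max 1 (max n1 n2), hθpos, ?_⟩
  intro n hn m ρ hρn hm hmn
  have hnn1 : n1 ≤ n := le_trans (le_trans (le_max_left _ _) (le_max_right _ _)) hn
  have hnn2 : n2 ≤ n := le_trans (le_trans (le_max_right _ _) (le_max_right _ _)) hn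
  have hn1' : 1 ≤ n := le_trans (le_max_left _ _) hn
  have hnR : (1:ℝ) ≤ n := by exact_mod_cast hn1'
  have hnpos : (0:ℝ) < n := by linarith
  have hρR : (16 : ℝ) ≤ ρ := by
    have h1 : 16 / σ ≤ n := hn1.trans (by exact_mod_cast hnn1)
    rw [div_le_iff₀ hσ] at h1
    linarith
  have hρ : 16 ≤ ρ := by exact_mod_cast hρR
  have hρpos : (0:ℝ) < ρ := by linarith
  set θ' : ℕ := ⌊θ * n⌋₊ with hθ'
  have hθn : 0 ≤ θ * n := by positivity
  have hθ'le : (θ' : ℝ) ≤ θ * n := Nat.floor_le hθn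
  have hfl : ⌊θ * n⌋ ≤ (θ' : ℤ) := by
    rw [hθ', Int.natCast_floor_eq_floor hθn]
  have h16 : 16 * θ' ≤ ρ := by
    have h1 : (16:ℝ) * θ' ≤ ρ := by
      have h2 : θ ≤ σ / 16 := min_le_left _ _
      have h3 : θ * n ≤ σ / 16 * n := mul_le_mul_of_nonneg_right h2 hnpos.le
      nlinarith
    exact_mod_cast h1
  have hfac : 0 ≤ 21 * (CD * (θ' + 1) / ρ) := by positivity
  have hsum : ∑ v ∈ (Finset.Icc (0:ℤ) n ×ˢ Finset.Icc (0:ℤ) n).filter
      (fun v : Vtx => (n : ℤ) ≤ 2 * v.2),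
      PQ (1 / 2) (RE 0 n 0 n) (fun F => Lf v m (↑F : Set Edg) ∧
        Tch v m ⌊θ * n⌋ (v.2 - 17 * ρ) (v.2 - 13 * ρ) F) ≤
      ((16 / σ + 1) ^ 2 * CL) * (21 * (CD * (θ' + 1) / ρ)) := by
    refine le_trans (Finset.sum_le_sum (fun v hv => one_le hDT hρ hm hmn h16 hfl
      (Finset.mem_filter.1 hv).1 (Finset.mem_filter.1 hv).2)) ?_
    rw [← Finset.sum_mul]
    refine mul_le_mul_of_nonneg_right ?_ hfac
    refine le_trans (Finset.sum_le_sum_of_subset_of_nonneg (Finset.filter_subset _ _)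
      (fun v _ _ => Pr_nonneg okh' _ _)) ?_
    exact sum_box hCL hLL hσ hρ hn1' hρn
  refine hsum.trans ?_
  have e1 : ((16 / σ + 1) ^ 2 * CL) * (21 * (CD * (θ' + 1) / ρ)) = K * ((θ' + 1) / ρ) := by
    rw [hK]; ring
  rw [e1]
  have hσn : 0 < σ * n := by positivity
  have h1 : ((θ' : ℝ) + 1) / ρ ≤ (θ * n + 1) / (σ * n) := by
    apply div_le_div₀ (by positivity) (by linarith) hσn hρn
  have h2 : (θ * n + 1) / (σ * n) = θ / σ + 1 / (σ * n) := by
    field_simp
  have h3 : θ / σ ≤ ε / (2 * K) := by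
    have h4 : θ ≤ ε * σ / (2 * K) := min_le_right _ _
    rw [div_le_iff₀ hσ]
    calc θ ≤ ε * σ / (2 * K) := h4
      _ = ε / (2 * K) * σ := by ring
  have h5 : 1 / (σ * n) ≤ ε / (2 * K) := by
    have h6 : 2 * K / (ε * σ) ≤ n := hn2.trans (by exact_mod_cast hnn2)
    rw [div_le_iff₀ (by positivity)] at h6
    rw [div_le_div_iff₀ hσn (by positivity)]
    linarith
  calc K * (((θ' : ℝ) + 1) / ρ) ≤ K * (ε / (2 * K) + ε / (2 * K)) := by
        apply mul_le_mul_of_nonneg_left _ hKpos.le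
        linarith
    _ = ε := by field_simp; ring

end Pool.Agent.V5helper90.OB

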