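import Pool.Agent.V5helper99.OB.Stm2
import Pool.Agent.V5helper90.LL.Defs

/-!
The outer boundary of critical clusters: the assembly (symmetries of the square, union bound over the
extreme vertices, choice of the parameters).
-/

set_option autoImplicit false

namespace Pool.Agent.V5helper90.OB

open H974 H12S Finset H984P H984N H342P Pool.Agent.V5helper99.OB Pool.Agent.V5helper90.LL

theorem okh : Ok (fun _ : Edg => (1 / 2 : ℝ)) := fun _ => ⟨by norm_num, by norm_num⟩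

/-! ### Symmetries -/

/-- Isometries for the maximum norm. -/
def Iso (g : Vtx ≃ Vtx) : Prop := ∀ u v, sd (g u) (g v) = sd u v

theorem wit_of_image {g : Vtx ≃ Vtx} (hg : Iso g) {n : ℕ} {D D' : Set Vtx}
    (hD : ∀ x, g x ∈ D' ↔ x ∈ D) {t E : ℝ} {B : ℕ} {M K : ℝ} (h : Wit n D' t E B M K) :
    Wit n D t E B M K := by
  classical
  obtain ⟨V, hne, hV, hE, hch⟩ := h
  have hgs : ∀ u v, sd (g.symm u) (g.symm v) = sd u v := by
    intro u v
    rw [← hg, Equiv.apply_symm_apply, Equiv.apply_symm_apply]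
  have hcard : (V.map g.symm.toEmbedding).card = V.card := Finset.card_map _
  refine ⟨V.map g.symm.toEmbedding, hne.map, ?_, ?_, ?_⟩
  · intro w hw
    obtain ⟨u, hu, rfl⟩ := Finset.mem_map.1 hw
    rw [← hD]
    simpa using hV u hu
  · rw [hcard]
    refine le_trans (le_of_eq ?_) hE
    unfold Pool.Agent.W822.PD.EnV
    rw [Finset.sum_map]
    refine Finset.sum_congr rfl fun v _ => ?_
    rw [Finset.sum_map]
    refine Finset.sum_congr rfl fun w _ => ?_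
    simp only [Equiv.coe_toEmbedding]
    rw [hgs]
  · intro w hw
    obtain ⟨u, hu, rfl⟩ := Finset.mem_map.1 hw
    obtain ⟨N, x, h0, h1, h2, h3⟩ := hch u hu
    refine ⟨N, fun i => g.symm (x i), ?_, ?_, ?_, ?_⟩
    · simp only [Equiv.coe_toEmbedding]
      rw [h0]
    · intro i hi
      rw [hgs]
      exact h1 i hi
    · simp only [Equiv.coe_toEmbedding]
      rw [hgs]
      exact h2
    · intro i hi d hd
      simp only [Equiv.coe_toEmbedding]
      have h4 := h3 i hi (g d) ((hD d).2 hd)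
      rw [hgs]
      have h5 : sd (g.symm (x i)) d = sd (x i) (g d) := by
        rw [← hgs (x i) (g d), Equiv.symm_apply_apply]
      rw [h5]
      exact h4

theorem iso_tps : Iso tps.ψ := by
  rintro ⟨a, b⟩ ⟨c, d⟩
  simp only [tps_ψ, sd]
  rw [max_comm]

theorem iso_rfy (k : ℤ) : Iso (rfy k).ψ := by
  rintro ⟨a, b⟩ ⟨c, d⟩
  simp only [rfy_ψ, sd]
  congr 1
  rw [abs_sub_comm b d]
  congr 1
  ring

/-- The bad event for extreme vertices in the upper half. -/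
def EvA (n m : ℕ) (t E : ℝ) (B : ℕ) (M K : ℝ) (F : Finset Edg) : Prop :=
  ∃ v ∈ (Finset.Icc (0:ℤ) n ×ˢ Finset.Icc (0:ℤ) n).filter (fun v : Vtx => (n : ℤ) ≤ 2 * v.2),
    Lf v m (↑F : Set Edg) ∧ ¬ Wit n {w | Reach (↑F : Set Edg) v w} t E B M K

theorem mem_bx {n : ℕ} {v : Vtx} : v ∈ Finset.Icc (0:ℤ) n ×ˢ Finset.Icc (0:ℤ) n ↔ inR 0 n 0 n v := by
  rw [Finset.mem_product, Finset.mem_Icc, Finset.mem_Icc]
  unfold inR
  tauto

/-- The cluster is finite: extreme vertices. -/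
theorem exists_extreme {n : ℕ} {D : Set Vtx} (hD : ∀ w ∈ D, inR 0 n 0 n w) (hne : D.Nonempty) :
    ∃ v ∈ D, ∃ v' ∈ D, v'.1 = v.1 ∧ v'.2 ≤ v.2 ∧ (∀ w ∈ D, v.1 ≤ w.1) ∧
      (∀ w ∈ D, w.1 = v.1 → w.2 ≤ v.2) ∧ ∀ w ∈ D, w.1 = v.1 → v'.2 ≤ w.2 := by
  classical
  set S : Finset Vtx := (Finset.Icc (0:ℤ) n ×ˢ Finset.Icc (0:ℤ) n).filter (fun w => w ∈ D) with hS
  have hmem : ∀ w, w ∈ S ↔ w ∈ D := by
    intro w
    rw [hS, Finset.mem_filter, mem_bx]
    exact ⟨fun h => h.2, fun h => ⟨hD w h, h⟩⟩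
  obtain ⟨a, ha⟩ := hne
  have hSne : S.Nonempty := ⟨a, (hmem a).2 ha⟩
  obtain ⟨b, hb, hbmin⟩ := Finset.exists_min_image S (fun w => w.1) hSne
  set S2 : Finset Vtx := S.filter (fun w => w.1 = b.1) with hS2
  have hS2ne : S2.Nonempty := ⟨b, by rw [hS2, Finset.mem_filter]; exact ⟨hb, rfl⟩⟩
  obtain ⟨v, hv, hvmax⟩ := Finset.exists_max_image S2 (fun w => w.2) hS2ne
  obtain ⟨v', hv', hvmin⟩ := Finset.exists_min_image S2 (fun w => w.2) hS2ne
  have hv1 := Finset.mem_filter.1 hv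
  have hv1' := Finset.mem_filter.1 hv'
  refine ⟨v, (hmem v).1 hv1.1, v', (hmem v').1 hv1'.1, hv1'.2.trans hv1.2.symm, hvmin v hv, ?_, ?_,
    ?_⟩
  · intro w hw
    rw [hv1.2]
    exact hbmin w ((hmem w).2 hw)
  · intro w hw h
    exact hvmax w (Finset.mem_filter.2 ⟨(hmem w).2 hw, h.trans hv1.2⟩)
  · intro w hw h
    exact hvmin w (Finset.mem_filter.2 ⟨(hmem w).2 hw, h.trans hv1.2⟩)

/-- The cluster is determined by any of its vertices. -/
theorem cluster_eq {F : Set Edg} {u v : Vtx} (h : Reach F u v) :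
    {w | Reach F u w} = {w | Reach F v w} := by
  ext w
  exact ⟨fun h1 => h.symm.trans h1, fun h1 => h.trans h1⟩

theorem reach_mp {g : LSym} {F : Finset Edg} {u v : Vtx} :
    Reach (↑(g.mp F) : Set Edg) (g.ψ u) (g.ψ v) ↔ Reach (↑F : Set Edg) u v := by
  rw [LSym.coe_mp]
  exact g.reach_iff

/-- Clusters of large horizontal extent. -/
theorem horizontal {n m : ℕ} {F : Finset Edg} (hF : F ⊆ RE 0 n 0 n) {v0 a b : Vtx}
    (hv0 : inR 0 n 0 n v0) (ha : Reach (↑F : Set Edg) v0 a) (hb : Reach (↑F : Set Edg) v0 b)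
    (hab : (m : ℤ) ≤ |a.1 - b.1|) {t E : ℝ} {B : ℕ} {M K : ℝ}
    (hW : ¬ Wit n {w | Reach (↑F : Set Edg) v0 w} t E B M K) :
    EvA n m t E B M K F ∨ EvA n m t E B M K ((rfy n).mp F) := by
  have hFs : (↑F : Set Edg) ⊆ ↑(RE 0 n 0 n) := by exact_mod_cast hF
  have hD : ∀ w ∈ {w | Reach (↑F : Set Edg) v0 w}, inR 0 n 0 n w := fun w hw =>
    reach_RE hFs hv0 hw
  obtain ⟨v, hv, v', hv', h1, h2, h3, h4, h5⟩ := exists_extreme hD ⟨v0, Reach.refl _ _⟩
  have hfar : ∃ w, v.1 + m ≤ w.1 ∧ Reach (↑F : Set Edg) v0 w := by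
    have ha1 := h3 a ha
    have hb1 := h3 b hb
    rcases le_abs'.1 hab with h | h
    · exact ⟨b, by omega, hb⟩
    · exact ⟨a, by omega, ha⟩
  have hvin := hD v hv
  have hvin' := hD v' hv'
  by_cases hhalf : (n : ℤ) ≤ 2 * v.2
  · left
    refine ⟨v, Finset.mem_filter.2 ⟨mem_bx.2 hvin, hhalf⟩, ⟨?_, ?_⟩, ?_⟩
    · obtain ⟨w, hw1, hw2⟩ := hfar
      exact ⟨w, hw1, (Reach.symm hv).trans hw2⟩
    · intro w hw
      have hw0 : Reach (↑F : Set Edg) v0 w := Reach.trans hv hw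
      exact ⟨h3 w hw0, h4 w hw0⟩
    · rw [← cluster_eq hv]
      exact hW
  · right
    set g : LSym := rfy n with hg
    have hgv : ∀ x : Vtx, g.ψ x = (x.1, n - x.2) := fun x => rfl
    have hinv : ∀ x : Vtx, g.ψ (g.ψ x) = x := by
      intro x
      rw [hgv, hgv]
      ext
      · rfl
      · simp
    have hR : ∀ u w : Vtx, Reach (↑(g.mp F) : Set Edg) (g.ψ u) w ↔
        Reach (↑F : Set Edg) u (g.ψ w) := by
      intro u w
      have := reach_mp (g := g) (F := F) (u := u) (v := g.ψ w)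
      rw [hinv] at this
      exact this
    refine ⟨g.ψ v', Finset.mem_filter.2 ⟨mem_bx.2 ?_, ?_⟩, ⟨?_, ?_⟩, ?_⟩
    · rw [hgv]
      unfold inR at hvin' ⊢
      simp only
      omega
    · rw [hgv]
      simp only
      omega
    · obtain ⟨w, hw1, hw2⟩ := hfar
      refine ⟨g.ψ w, ?_, reach_mp.2 ((Reach.symm hv').trans hw2)⟩
      rw [hgv, hgv]
      simp only
      omega
    · intro w hw
      rw [hR] at hw
      have hw0 : Reach (↑F : Set Edg) v0 (g.ψ w) := Reach.trans hv' hw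
      have k1 := h3 _ hw0
      rw [hgv] at k1
      rw [hgv]
      simp only at k1 ⊢
      refine ⟨by omega, fun h => ?_⟩
      have k2 := h5 _ hw0 (by rw [hgv]; simp only; omega)
      rw [hgv] at k2
      simp only at k2
      omega
    · intro hcon
      apply hW
      refine wit_of_image (iso_rfy n) (D' := {w | Reach (↑(g.mp F) : Set Edg) (g.ψ v') w})
        (fun x => ?_) hcon
      rw [Set.mem_setOf_eq, Set.mem_setOf_eq]
      have : Reach (↑(g.mp F) : Set Edg) (g.ψ v') (g.ψ x) ↔ Reach (↑F : Set Edg) v' x := reach_mp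
      refine this.trans ⟨fun h => Reach.trans hv' h, fun h => (Reach.symm hv').trans h⟩

/-- The four cases. -/
theorem four {n m : ℕ} {F : Finset Edg} (hF : F ⊆ RE 0 n 0 n) {v0 a b : Vtx}
    (hv0 : inR 0 n 0 n v0) (ha : Reach (↑F : Set Edg) v0 a) (hb : Reach (↑F : Set Edg) v0 b)
    (hab : (m : ℤ) ≤ sd a b) {t E : ℝ} {B : ℕ} {M K : ℝ}
    (hW : ¬ Wit n {w | Reach (↑F : Set Edg) v0 w} t E B M K) :
    (EvA n m t E B M K F ∨ EvA n m t E B M K ((rfy n).mp F)) ∨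
      (EvA n m t E B M K (tps.mp F) ∨ EvA n m t E B M K ((rfy n).mp (tps.mp F))) := by
  unfold sd at hab
  rcases le_max_iff.1 hab with h | h
  · left
    exact horizontal hF hv0 ha hb h hW
  · right
    have hF' : tps.mp F ⊆ RE 0 n 0 n := by
      have := tps.mp_mono hF
      rwa [tps_RE] at this
    refine horizontal hF' (v0 := tps.ψ v0) (a := tps.ψ a) (b := tps.ψ b) ?_ (reach_mp.2 ha)
      (reach_mp.2 hb) ?_ ?_
    · obtain ⟨x, y⟩ := v0
      unfold inR at hv0 ⊢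
      simp only [tps_ψ]
      simp only at hv0
      omega
    · obtain ⟨x, y⟩ := a
      obtain ⟨x', y'⟩ := b
      simpa using h
    · intro hcon
      apply hW
      refine wit_of_image iso_tps (D' := {w | Reach (↑(tps.mp F) : Set Edg) (tps.ψ v0) w})
        (fun x => ?_) hcon
      rw [Set.mem_setOf_eq, Set.mem_setOf_eq]
      exact reach_mp

/-- Invariance of the probabilities. -/
theorem pr_inv {n : ℕ} {g : LSym} (hg : g.mp (RE 0 n 0 n) = RE 0 n 0 n)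
    (A : Finset Edg → Prop) :
    PQ (1 / 2) (RE 0 n 0 n) (fun F => A (g.mp F)) = PQ (1 / 2) (RE 0 n 0 n) A := by
  have := g.pr (1 / 2) (RE 0 n 0 n) A
  rw [hg] at this
  exact this.symm

theorem rfy_box (n : ℕ) : (rfy n).mp (RE 0 n 0 n) = RE 0 n 0 n := by
  rw [rfy_RE]; simp

theorem pr_four {n m : ℕ} {t E : ℝ} {B : ℕ} {M K : ℝ} :
    PQ (1 / 2) (RE 0 n 0 n) (fun F =>
      (EvA n m t E B M K F ∨ EvA n m t E B M K ((rfy n).mp F)) ∨
      (EvA n m t E B M K (tps.mp F) ∨ EvA n m t E B M K ((rfy n).mp (tps.mp F)))) ≤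
      4 * PQ (1 / 2) (RE 0 n 0 n) (EvA n m t E B M K) := by
  have h1 := Pr_or_le okh (RE 0 n 0 n)
    (fun F => EvA n m t E B M K F ∨ EvA n m t E B M K ((rfy n).mp F))
    (fun F => EvA n m t E B M K (tps.mp F) ∨ EvA n m t E B M K ((rfy n).mp (tps.mp F)))
  have h2 := Pr_or_le okh (RE 0 n 0 n)
    (EvA n m t E B M K) (fun F => EvA n m t E B M K ((rfy n).mp F))
  have h3 : PQ (1 / 2) (RE 0 n 0 n) (fun F => EvA n m t E B M K (tps.mp F) ∨
      EvA n m t E B M K ((rfy n).mp (tps.mp F))) =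
      PQ (1 / 2) (RE 0 n 0 n) (fun F => EvA n m t E B M K F ∨ EvA n m t E B M K ((rfy n).mp F)) :=
    pr_inv (tps_RE _ _ _ _) (fun F => EvA n m t E B M K F ∨ EvA n m t E B M K ((rfy n).mp F))
  have h4 : PQ (1 / 2) (RE 0 n 0 n) (fun F => EvA n m t E B M K ((rfy n).mp F)) =
      PQ (1 / 2) (RE 0 n 0 n) (EvA n m t E B M K) := pr_inv (rfy_box n) _
  have h1' : PQ (1 / 2) (RE 0 n 0 n) (fun F =>
      (EvA n m t E B M K F ∨ EvA n m t E B M K ((rfy n).mp F)) ∨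
      (EvA n m t E B M K (tps.mp F) ∨ EvA n m t E B M K ((rfy n).mp (tps.mp F)))) ≤
      PQ (1 / 2) (RE 0 n 0 n) (fun F => EvA n m t E B M K F ∨ EvA n m t E B M K ((rfy n).mp F)) +
      PQ (1 / 2) (RE 0 n 0 n) (fun F => EvA n m t E B M K (tps.mp F) ∨
        EvA n m t E B M K ((rfy n).mp (tps.mp F))) := h1
  have h2' : PQ (1 / 2) (RE 0 n 0 n) (fun F => EvA n m t E B M K F ∨
      EvA n m t E B M K ((rfy n).mp F)) ≤ PQ (1 / 2) (RE 0 n 0 n) (EvA n m t E B M K) +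
      PQ (1 / 2) (RE 0 n 0 n) (fun F => EvA n m t E B M K ((rfy n).mp F)) := h2
  linarith

/-- ASM. -/
theorem t_ASM : S_ASM := by
  intro hT hN hC t ht ht1 η hη
  obtain ⟨c1, hc1, hc1', hcore⟩ := hC t ht ht1
  -- parameters
  set η' : ℝ := min η 1 with hη'
  have hη0 : 0 < η' := lt_min hη one_pos
  have hη1 : η' ≤ 1 := min_le_right _ _
  have hηη : η' ≤ η := min_le_left _ _
  obtain ⟨Cn, hCn, hnum⟩ := hN (η' / 2) (by positivity)
  obtain ⟨J, hJ⟩ := exists_pow_lt_of_lt_one (show 0 < η' / (8 * Cn) by positivity)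
    (show 1 - c1 < 1 by linarith)
  set D : ℕ := 64 * 2 ^ J with hD
  have hDpos : 0 < D := by rw [hD]; positivity
  have hDR : (0:ℝ) < D := by exact_mod_cast hDpos
  set σ : ℝ := η' / (4 * D) with hσ
  have hσ0 : 0 < σ := by positivity
  obtain ⟨θ, nT, hθ, hT⟩ := hT (η' / (8 * (J + 1))) (by positivity) σ hσ0
  obtain ⟨E, B, M, K, nC, hE, hB, hM, hK, hcore⟩ := hcore θ σ hθ hσ0
  obtain ⟨n1, hn1⟩ := exists_nat_gt (4 * D / η')
  refine ⟨E, B, M, K, max (max nT nC) (max n1 1), hE, hB, hM, hK, fun n hn => ?_⟩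
  rw [max_le_iff, max_le_iff, max_le_iff] at hn
  obtain ⟨⟨hnT, hnC⟩, hnn1, hn1'⟩ := hn
  have hnR : (1:ℝ) ≤ n := by exact_mod_cast hn1'
  have hnpos : (0:ℝ) < n := by linarith
  have hbig : 4 * D < η' * n := by
    have h1 : (n1:ℝ) ≤ n := by exact_mod_cast hnn1
    have h2 : 4 * D / η' < n := lt_of_lt_of_le hn1 h1
    rw [div_lt_iff₀ hη0] at h2
    linarith
  set m : ℕ := ⌊η' * n⌋₊ with hm
  have hm1 : (m:ℝ) ≤ η' * n := Nat.floor_le (by positivity)
  have hm2 : η' * n < m + 1 := Nat.lt_floor_add_one _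
  have hD1 : (64:ℝ) ≤ D := by
    have h1 : 64 ≤ D := by
      rw [hD]
      have : 1 ≤ 2 ^ J := Nat.one_le_two_pow
      omega
    exact_mod_cast h1
  have hmhalf : η' / 2 * n ≤ m := by nlinarith
  have hmn : m ≤ n := by
    have : (m:ℝ) ≤ n := by nlinarith
    exact_mod_cast this
  set ρ : ℕ := m / D with hρ
  have hρ1 : D * ρ ≤ m := by rw [hρ]; exact Nat.mul_div_le m D
  have hρ2 : m < D * (ρ + 1) := by rw [hρ]; exact Nat.lt_mul_div_succ m hDpos
  have hρσ : σ * n ≤ ρ := by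
    have h1 : (m:ℝ) < D * (ρ + 1) := by exact_mod_cast hρ2
    have h2 : η' * n - 1 < D * (ρ + 1) := by linarith
    rw [hσ, div_mul_eq_mul_div, div_le_iff₀ (by positivity)]
    nlinarith
  -- the bad event
  have hbad : PQ (1 / 2) (RE 0 n 0 n) (EvA n m t E B M K) ≤ η' / 4 := by
    classical
    set I : Finset Vtx := (Finset.Icc (0:ℤ) n ×ˢ Finset.Icc (0:ℤ) n).filter
      (fun v : Vtx => (n : ℤ) ≤ 2 * v.2) with hI
    have h1 : PQ (1 / 2) (RE 0 n 0 n) (EvA n m t E B M K) ≤ ∑ v ∈ I,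
        PQ (1 / 2) (RE 0 n 0 n) (fun F => Lf v m (↑F : Set Edg) ∧
          ¬ Wit n {w | Reach (↑F : Set Edg) v w} t E B M K) :=
      Pr_exists_le okh _ I _
    have h2 : ∀ v ∈ I, PQ (1 / 2) (RE 0 n 0 n) (fun F => Lf v m (↑F : Set Edg) ∧
          ¬ Wit n {w | Reach (↑F : Set Edg) v w} t E B M K) ≤
        (∑ j ∈ Finset.range J, PQ (1 / 2) (RE 0 n 0 n) (fun F => Lf v m (↑F : Set Edg) ∧
          Tch v m ⌊θ * n⌋ (v.2 - 17 * (2 ^ j * ρ : ℕ)) (v.2 - 13 * (2 ^ j * ρ : ℕ)) F)) +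
        (1 - c1) ^ J * PQ (1 / 2) (RE 0 n 0 n) (fun F => Lf v m (↑F : Set Edg)) := by
      intro v hv
      rw [hI, Finset.mem_filter] at hv
      have h3 := hcore n hnC m ρ J hρσ (by rw [← hD]; exact hρ1) hmn v hv.1 hv.2
      refine le_trans ?_ (add_le_add_right h3 _)
      refine le_trans ?_ (add_le_add_left (Pr_exists_le okh (RE 0 n 0 n) (Finset.range J)
        (fun j F => Lf v m (↑F : Set Edg) ∧
          Tch v m ⌊θ * n⌋ (v.2 - 17 * (2 ^ j * ρ : ℕ)) (v.2 - 13 * (2 ^ j * ρ : ℕ)) F)) _)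
      refine le_trans ?_ (Pr_or_le okh _ _ _)
      apply Pr_mono okh
      rintro F hF ⟨hL, hW⟩
      by_cases htc : ∃ j ∈ Finset.range J, Lf v m (↑F : Set Edg) ∧
          Tch v m ⌊θ * n⌋ (v.2 - 17 * (2 ^ j * ρ : ℕ)) (v.2 - 13 * (2 ^ j * ρ : ℕ)) F
      · exact Or.inl htc
      · right
        refine ⟨hL, fun j hj hcon => htc ⟨j, Finset.mem_range.2 hj, hL, hcon⟩, hW⟩
    refine h1.trans ((Finset.sum_le_sum h2).trans ?_)
    rw [Finset.sum_add_distrib, Finset.sum_comm, ← Finset.mul_sum]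
    have h4 : ∀ j ∈ Finset.range J, ∑ v ∈ I, PQ (1 / 2) (RE 0 n 0 n)
        (fun F => Lf v m (↑F : Set Edg) ∧
          Tch v m ⌊θ * n⌋ (v.2 - 17 * (2 ^ j * ρ : ℕ)) (v.2 - 13 * (2 ^ j * ρ : ℕ)) F) ≤
        η' / (8 * (J + 1)) := by
      intro j hj
      rw [Finset.mem_range] at hj
      have hpow : (2:ℕ) ^ j ≤ 2 ^ J := Nat.pow_le_pow_right (by norm_num) hj.le
      have hone : (1:ℕ) ≤ 2 ^ j := Nat.one_le_two_pow
      have h5 : σ * n ≤ ((2 ^ j * ρ : ℕ) : ℝ) := by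
        refine hρσ.trans ?_
        have : ρ ≤ 2 ^ j * ρ := Nat.le_mul_of_pos_left _ hone
        exact_mod_cast this
      have h6 : 64 * (2 ^ j * ρ) ≤ m := by
        refine le_trans ?_ hρ1
        rw [hD]
        calc 64 * (2 ^ j * ρ) ≤ 64 * (2 ^ J * ρ) := by gcongr
          _ = 64 * 2 ^ J * ρ := by ring
      exact hT n hnT m (2 ^ j * ρ) h5 h6 hmn
    have h7 : ∑ j ∈ Finset.range J, ∑ v ∈ I, PQ (1 / 2) (RE 0 n 0 n)
        (fun F => Lf v m (↑F : Set Edg) ∧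
          Tch v m ⌊θ * n⌋ (v.2 - 17 * (2 ^ j * ρ : ℕ)) (v.2 - 13 * (2 ^ j * ρ : ℕ)) F) ≤
        η' / 8 := by
      refine (Finset.sum_le_sum h4).trans ?_
      rw [Finset.sum_const, Finset.card_range, nsmul_eq_mul]
      have hJ1 : (0:ℝ) < J + 1 := by positivity
      rw [← div_div]
      have : (J:ℝ) * (η' / 8 / (J + 1)) = (η' / 8) * (J / (J + 1)) := by
        field_simp
      rw [this]
      have h8 : (J:ℝ) / (J + 1) ≤ 1 := by
        rw [div_le_one hJ1]; linarith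
      nlinarith
    have h8 : ∑ v ∈ I, PQ (1 / 2) (RE 0 n 0 n) (fun F => Lf v m (↑F : Set Edg)) ≤ Cn := by
      refine le_trans (Finset.sum_le_sum_of_subset_of_nonneg (Finset.filter_subset _ _) ?_)
        (hnum n hn1' m hmhalf)
      intro v _ _
      exact Pr_nonneg okh _ _
    have h9 : (1 - c1) ^ J * ∑ v ∈ I, PQ (1 / 2) (RE 0 n 0 n) (fun F => Lf v m (↑F : Set Edg)) ≤
        η' / 8 := by
      have h10 : (0:ℝ) ≤ (1 - c1) ^ J := pow_nonneg (by linarith) _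
      calc (1 - c1) ^ J * ∑ v ∈ I, PQ (1 / 2) (RE 0 n 0 n) (fun F => Lf v m (↑F : Set Edg))
          ≤ (1 - c1) ^ J * Cn := mul_le_mul_of_nonneg_left h8 h10
        _ ≤ η' / (8 * Cn) * Cn := mul_le_mul_of_nonneg_right hJ.le hCn.le
        _ = η' / 8 := by field_simp
    linarith
  -- conclusion
  refine le_trans (Plain.prob_le_of_pr (B := fun F =>
      (EvA n m t E B M K F ∨ EvA n m t E B M K ((rfy n).mp F)) ∨
      (EvA n m t E B M K (tps.mp F) ∨ EvA n m t E B M K ((rfy n).mp (tps.mp F)))) ?_) ?_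
  · rintro F hF ⟨v, hv, ⟨a, ha, b, hb, hab⟩, hW⟩
    rw [Plain.edges_eq] at hF
    have hcl : Plain.cluster F v = {w | Reach (↑F : Set Edg) v w} := by
      ext w
      exact Plain.mem_cluster F v w
    rw [hcl] at hW
    refine four hF (mem_bx.1 hv) ((Plain.mem_cluster F v a).1 ha) ((Plain.mem_cluster F v b).1 hb)
      ?_ hW
    have h1 : (m:ℝ) ≤ ((sd a b : ℤ) : ℝ) := by
      refine le_trans hm1 (le_trans ?_ hab)
      exact mul_le_mul_of_nonneg_right hηη hnpos.le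
    exact_mod_cast h1
  · refine (pr_four (n := n) (m := m)).trans ?_
    linarith

end Pool.Agent.V5helper90.OB
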